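import Pool.Agent.R21.FP.Link

/-!
# Flow polynomials of simple cubic graphs

Proof by helper785. For a graph given by a multiset `L` of vectors over the field with two elements,
the absolute values of the coefficients of the flow polynomial are the coefficients of a polynomial
`f` with nonnegative coefficients, which satisfies the deletion-contraction rule. The deletion of an
edge `uv` and the suppression of `u`, `v` gives a cubic graph `G'` with `f(G) ≥ (t + 2) f(G')`, and
`f(G) ≥ (t + 3) f(G')` when the rest of the graph is connected. The lower bound follows by induction,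
together with the bound for cubic graphs with one double edge.
-/

set_option autoImplicit false
set_option linter.unusedSectionVars false

open Polynomial

namespace Pool.Agent.Results.MP_76bad1_co.CubicFlow

open Pool.Agent.R21.FP

variable {V : Type} [Fintype V] [DecidableEq V]

/-- the number of connected components of the spanning subgraph with the set of edges `Z` -/
noncomputable def numComp (Z : Finset (Sym2 V)) : ℕ :=
  Nat.card (SimpleGraph.fromEdgeSet (Z : Set (Sym2 V))).ConnectedComponent

/-- the flow polynomial `∑_{Z ⊆ E} (-1)^(m - |Z|) t^(|Z| + c(Z) - n)` -/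
noncomputable def flowPoly (G : SimpleGraph V) [DecidableRel G.Adj] : ℤ[X] :=
  ∑ Z ∈ G.edgeFinset.powerset,
    (-1) ^ (G.edgeFinset.card - Z.card) * X ^ (Z.card + numComp Z - Fintype.card V)

variable (G : SimpleGraph V) [DecidableRel G.Adj]

/-- the multiset of the vectors of the edges -/
noncomputable def LL : Multiset (V → ZMod 2) := G.edgeFinset.val.map vec

lemma not_diag {e : Sym2 V} (he : e ∈ G.edgeSet) : ¬ e.IsDiag := G.not_isDiag_of_mem_edgeSet he

lemma LL_nodup : (LL G).Nodup := by
  apply Multiset.Nodup.map_on _ G.edgeFinset.nodup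
  intro e he e' he' h
  rw [Finset.mem_val, SimpleGraph.mem_edgeFinset] at he he'
  exact vec_inj (not_diag G he) (not_diag G he') h

lemma dg_LL (s : V) : dg s (LL G) = G.degree s := by
  unfold dg LL
  rw [Multiset.countP_map, ← G.card_incidenceFinset_eq_degree, G.incidenceFinset_eq_filter,
    Finset.card_def, Finset.filter_val]
  congr 1
  apply Multiset.filter_congr
  intro e he
  rw [Finset.mem_val, SimpleGraph.mem_edgeFinset] at he
  exact vec_eq_one (not_diag G he) s

lemma cub_LL (h3 : G.IsRegularOfDegree 3) : Cub Finset.univ (LL G) := by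
  constructor
  · intro g hg
    obtain ⟨e, he, rfl⟩ := Multiset.mem_map.mp hg
    rw [Finset.mem_val, SimpleGraph.mem_edgeFinset] at he
    have hd := not_diag G he
    induction e using Sym2.ind with
    | _ a b =>
      rw [Sym2.mk_isDiag_iff] at hd
      exact ⟨a, Finset.mem_univ _, b, Finset.mem_univ _, hd, rfl⟩
  · intro s _
    rw [dg_LL]
    exact h3 s

/-- a reachable pair with different labels is separated by an edge -/
lemma exists_cross (H : SimpleGraph V) (x : V → ZMod 2) {s t : V} (h : H.Reachable s t)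
    (hst : x s ≠ x t) : ∃ a b, H.Adj a b ∧ x a ≠ x b := by
  by_contra hno
  push Not at hno
  obtain ⟨p⟩ := h
  apply hst
  clear hst
  induction p with
  | nil => rfl
  | cons hadj p ih => exact (hno _ _ hadj).trans ih

lemma twoEC_LL (hc : G.Connected) (hb : ∀ e ∈ G.edgeSet, ¬ G.IsBridge e) :
    TwoEC Finset.univ (LL G) := by
  intro x s _ t _ hst
  obtain ⟨a, b, hab, hx⟩ := exists_cross G x (hc.preconnected s t) hst
  have h1 := hb s(a, b) hab
  rw [SimpleGraph.isBridge_iff] at h1
  rw [not_not] at h1
  obtain ⟨c, d, hcd, hx'⟩ := exists_cross _ x h1 hx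
  rw [SimpleGraph.deleteEdges_adj] at hcd
  have hne : s(c, d) ≠ s(a, b) := hcd.2
  have hcut : cut x (LL G) = (G.edgeFinset.filter (fun e => lab x (vec e) = 1)).card := by
    unfold cut LL
    rw [Multiset.countP_map, Finset.card_def, Finset.filter_val]
  have hcr : ∀ a b, x a ≠ x b → lab x (vec s(a, b)) = 1 := by
    intro a b h
    rw [vec_mk, lab_ed]
    have := ind_ne h
    unfold ind at this
    by_contra h'
    rw [if_neg h'] at this
    exact absurd this (by decide)
  rw [hcut]
  apply Finset.one_lt_card.mpr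
  refine ⟨s(a, b), ?_, s(c, d), ?_, hne.symm⟩
  · rw [Finset.mem_filter, SimpleGraph.mem_edgeFinset]
    exact ⟨hab, hcr a b hx⟩
  · rw [Finset.mem_filter, SimpleGraph.mem_edgeFinset]
    exact ⟨hcd.1, hcr c d hx'⟩

lemma coeff_sign (e : ℕ) (j i : ℕ) : (((-1) ^ e * X ^ j : ℤ[X])).coeff i =
    if i = j then (-1) ^ e else 0 := by
  have : ((-1) ^ e * X ^ j : ℤ[X]) = C ((-1) ^ e) * X ^ j := by simp
  rw [this, coeff_C_mul_X_pow]

/-- the coefficients of the flow polynomial up to sign -/
lemma coeff_flowPoly (i : ℕ) : (flowPoly G).coeff i =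
    (-1) ^ (G.edgeFinset.card + rk ⊥ (LL G) + i) * (f ⊥ (LL G)).coeff i := by
  unfold f
  rw [LL, sum_powerset_map G.edgeFinset
    (fun Z => (-1) ^ (rk ⊥ (G.edgeFinset.val.map vec) - rk ⊥ Z) * X ^ (Z.card - (rk ⊥ Z - rk ⊥ 0)))]
  unfold flowPoly
  rw [finsetSum_coeff, finsetSum_coeff, Finset.mul_sum]
  apply Finset.sum_congr rfl
  intro Z hZ
  rw [Finset.mem_powerset] at hZ
  have hd : ∀ e ∈ Z, ¬ e.IsDiag := fun e he =>
    not_diag G (SimpleGraph.mem_edgeFinset.mp (hZ he))
  have h1 := rk_add_cc hd
  have h2 := rk_le ⊥ (Z.val.map vec)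
  have h3 : rk (⊥ : Submodule (ZMod 2) (V → ZMod 2)) 0 = 0 := by
    unfold rk; rw [sp_zero]; simp
  have h4 : rk ⊥ (Z.val.map vec) ≤ rk ⊥ (G.edgeFinset.val.map vec) :=
    rk_mono (sp_le_of_le (Multiset.map_le_map (Finset.val_le_iff.mpr hZ)))
  have h5 := Finset.card_le_card hZ
  have hcc : numComp Z = cc Z := rfl
  rw [h3, Multiset.card_map, Finset.card_val] at h2
  simp only [Multiset.card_map, Finset.card_val, h3, tsub_zero]
  rw [show Z.card + numComp Z - Fintype.card V = Z.card - rk ⊥ (Z.val.map vec) by omega,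
    coeff_sign, coeff_sign]
  by_cases hi : i = Z.card - rk ⊥ (Z.val.map vec)
  · rw [if_pos hi, if_pos hi, ← pow_add]
    have h6 : G.edgeFinset.card + rk ⊥ (G.edgeFinset.val.map vec) + i +
        (rk ⊥ (G.edgeFinset.val.map vec) - rk ⊥ (Z.val.map vec)) =
        (G.edgeFinset.card - Z.card) + 2 * (Z.card - rk ⊥ (Z.val.map vec) +
          rk ⊥ (G.edgeFinset.val.map vec)) := by omega
    rw [h6, pow_add, pow_mul]
    simp
  · rw [if_neg hi, if_neg hi, mul_zero]

/-- For every simple connected bridgeless cubic graph with `n ≥ 6` vertices the absolute value of the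
coefficient of `t ^ i` of the flow polynomial is at least the coefficient of `t ^ i` of the polynomial
`(t + 1) (t + 2) ^ (n / 2 - 2) (t + 3) ^ 2`. -/
theorem result (hconn : G.Connected) (hcubic : G.IsRegularOfDegree 3)
    (hbridgeless : ∀ e ∈ G.edgeSet, ¬ G.IsBridge e) (hn : 6 ≤ Fintype.card V) (i : ℕ) :
    ((X + 1) * (X + 2) ^ (Fintype.card V / 2 - 2) * (X + 3) ^ 2 : ℤ[X]).coeff i ≤
      |(flowPoly G).coeff i| := by
  have h1 := G.sum_degrees_eq_twice_card_edges
  simp only [hcubic.degree_eq, Finset.sum_const, Finset.card_univ, smul_eq_mul] at h1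
  obtain ⟨k, hk⟩ : ∃ k, Fintype.card V = 2 * (k + 3) := ⟨Fintype.card V / 2 - 3, by omega⟩
  have h2 := (main V k).1 Finset.univ (LL G) (by rw [Finset.card_univ, hk]) (cub_LL G hcubic)
    (twoEC_LL G hconn hbridgeless) (LL_nodup G) i
  rw [coeff_flowPoly, abs_mul, abs_pow, abs_neg, abs_one, one_pow, one_mul,
    abs_of_nonneg (f_pos ⊥ (LL G) i), show Fintype.card V / 2 - 2 = k + 1 by omega]
  rw [coeff_sub] at h2
  linarith

end Pool.Agent.Results.MP_76bad1_co.CubicFlow
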